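import Pool.Agent.Q86.AlbMain

/-!
# MP_de6bc3_an : the spectral `L^p`-expression on `L^∞(Ω, H₃(𝕆_ℂ))` is a norm

Q1 has the positive answer. The definitions (octonions, Hermitian octonion matrices, Jordan product,
complexification, functional calculus, traces, `‖x‖_p`) are in `Pool/Agent/Q86/AlbDefs.lean`.
-/

set_option autoImplicit false

namespace Pool.Agent.Results.MP_de6bc3_an.IsNorm

open MeasureTheory Pool.Agent.Q86.Alb

/-- The product of `H3` is the symmetrised product of Hermitian octonion matrices; `x* ∘ x` lies in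
`H₃(𝕆)` (its second component vanishes); functional calculus is well defined; and for every measure space `(Ω, μ)`, every positive trace `τ` on
`L^∞(Ω, H₃(𝕆_ℂ))`, every `p ≥ 1` and all `x, y`, the power `(x* ∘ x)^(p/2)` belongs to
`L^∞(Ω, H₃(𝕆_ℂ))`, has a nonnegative trace, and `‖x + y‖_p ≤ ‖x‖_p + ‖y‖_p`. -/
theorem result :
    (∀ x y : H3, (H3.jmul x y).toMatrix =
      (1 / 2 : ℝ) • (x.toMatrix * y.toMatrix + y.toMatrix * x.toMatrix)) ∧
    (∀ x : HC, (HC.jmul (HC.conj x) x).2 = 0) ∧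
    (∀ (φ : ℝ → ℝ) (a : H3), ∃! b, IsFC φ a b) ∧
    ∀ (Ω : Type*) [MeasurableSpace Ω] (μ : Measure Ω) (τ : (Ω → HC) → ℂ), IsPosTrace μ τ →
      ∀ p : ℝ, 1 ≤ p → ∀ x y : Ω → HC, MemLp x ⊤ μ → MemLp y ⊤ μ →
        MemLp (fun ω => HC.absPow p (x ω)) ⊤ μ ∧ 0 ≤ (τ fun ω => HC.absPow p (x ω)).re ∧
          (τ fun ω => HC.absPow p (x ω)).im = 0 ∧
          normP τ p (x + y) ≤ normP τ p x + normP τ p y :=
  ⟨toMatrix_jmul, conj_jmul_snd, existsUnique_fc, fun _ _ _ _ hτ _ hp _ _ hx hy => main hτ hp hx hy⟩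

end Pool.Agent.Results.MP_de6bc3_an.IsNorm
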